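import Pool.Agent.helper94.SCT.Spec

set_option autoImplicit false

namespace Pool.Agent.SCT

open Finset ArithmeticFunction MeasureTheory

private theorem UPP_van {φ : ℝ → ℝ} {R : ℝ} (hR : ∀ u, φ u ≠ 0 → |u| ≤ R) {N : ℝ} (hN : 0 < N) (n : ℕ)
    (hn : N * Real.exp R < n) : φ (Real.log ((n : ℝ) / N)) = 0 := by
  by_contra hc
  have h3 := hR _ hc
  have h5 : Real.exp R < (n : ℝ) / N := by
    rw [lt_div_iff₀ hN]
    linarith [mul_comm N (Real.exp R)]
  have h6 : R < Real.log ((n : ℝ) / N) := by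
    rw [Real.lt_log_iff_exp_lt ((Real.exp_pos R).trans h5)]
    exact h5
  linarith [le_abs_self (Real.log ((n : ℝ) / N))]

/-- finite parts of `Spn` -/
private theorem UPP_spn {φ g w : ℝ → ℝ} (hφ : Sm φ) (hφ0 : ∀ u, 0 ≤ φ u) (hg : Sm g) (hg0 : ∀ u, 0 ≤ g u)
    (hw0 : ∀ u, 0 ≤ w u) (x : ℕ) (hx : 1 ≤ x) (η : ℝ) (F : Finset ℕ) (G : ℕ → Finset ℕ) :
    ∑ m ∈ F, ∑ n ∈ G m, vonMangoldt m * vonMangoldt n * φ (Real.log ((m : ℝ) / x)) *
      g (Real.log ((n : ℝ) / (x : ℝ) ^ 2)) * w ((Real.log n - Real.log (8 * (m : ℝ) ^ 2)) / η) ≤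
      Spn φ g w x η := by
  have hx0 : (0 : ℝ) < x := by exact_mod_cast hx
  obtain ⟨R, -, hR, -⟩ := hφ.bound
  obtain ⟨S, -, hS, -⟩ := hg.bound
  have hnn : ∀ m n : ℕ, 0 ≤ vonMangoldt m * vonMangoldt n * φ (Real.log ((m : ℝ) / x)) *
      g (Real.log ((n : ℝ) / (x : ℝ) ^ 2)) * w ((Real.log n - Real.log (8 * (m : ℝ) ^ 2)) / η) := fun m n =>
    mul_nonneg (mul_nonneg (mul_nonneg (mul_nonneg vonMangoldt_nonneg vonMangoldt_nonneg) (hφ0 _)) (hg0 _)) (hw0 _)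
  have hin : ∀ m : ℕ, Summable fun n : ℕ => vonMangoldt m * vonMangoldt n * φ (Real.log ((m : ℝ) / x)) *
      g (Real.log ((n : ℝ) / (x : ℝ) ^ 2)) * w ((Real.log n - Real.log (8 * (m : ℝ) ^ 2)) / η) := by
    intro m
    refine summable_of_ne_finset_zero (s := range (⌊(x : ℝ) ^ 2 * Real.exp S⌋₊ + 1)) fun n hn => ?_
    have h1 : ⌊(x : ℝ) ^ 2 * Real.exp S⌋₊ < n := by
      by_contra hc
      exact hn (mem_range.2 (by omega))
    have h2 : (x : ℝ) ^ 2 * Real.exp S < n := (Nat.floor_lt (by positivity)).1 h1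
    rw [UPP_van hS (by positivity) n h2]
    ring
  have hout : Summable fun m : ℕ => ∑' n : ℕ, vonMangoldt m * vonMangoldt n * φ (Real.log ((m : ℝ) / x)) *
      g (Real.log ((n : ℝ) / (x : ℝ) ^ 2)) * w ((Real.log n - Real.log (8 * (m : ℝ) ^ 2)) / η) := by
    refine summable_of_ne_finset_zero (s := range (⌊(x : ℝ) * Real.exp R⌋₊ + 1)) fun m hm => ?_
    have h1 : ⌊(x : ℝ) * Real.exp R⌋₊ < m := by
      by_contra hc
      exact hm (mem_range.2 (by omega))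
    have h2 : (x : ℝ) * Real.exp R < m := (Nat.floor_lt (by positivity)).1 h1
    rw [UPP_van hR hx0 m h2]
    simp
  unfold Spn
  calc _ ≤ ∑ m ∈ F, ∑' n : ℕ, vonMangoldt m * vonMangoldt n * φ (Real.log ((m : ℝ) / x)) *
      g (Real.log ((n : ℝ) / (x : ℝ) ^ 2)) * w ((Real.log n - Real.log (8 * (m : ℝ) ^ 2)) / η) :=
        Finset.sum_le_sum fun m _ => (hin m).sum_le_tsum _ fun n _ => hnn m n
    _ ≤ _ := hout.sum_le_tsum _ fun m _ => tsum_nonneg fun n => hnn m n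

/-- the integral of a bump against an exponential -/
private theorem UPP_int {w : ℝ → ℝ} (hw : Sm w) {a b c : ℝ} (hab : a ≤ b) (hc : 0 < c) (hw1 : ∀ u, w u ≤ 1)
    (hws : ∀ u, w u ≠ 0 → a < u ∧ u < b) :
    c * ∫ v : ℝ, w v * Real.exp (c * v) ≤ Real.exp (c * b) - Real.exp (c * a) := by
  have hcont : Continuous fun v : ℝ => Real.exp (c * v) := by fun_prop
  have h1 : ∫ v : ℝ, w v * Real.exp (c * v) ≤ ∫ v in a..b, Real.exp (c * v) := by
    rw [intervalIntegral.integral_of_le hab, ← integral_indicator measurableSet_Ioc]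
    refine integral_mono ?_ ?_ fun v => ?_
    · exact (hw.cont.mul hcont).integrable_of_hasCompactSupport hw.2.mul_right
    · exact (integrable_indicator_iff measurableSet_Ioc).2
        ((hcont.integrableOn_Icc).mono_set Set.Ioc_subset_Icc_self)
    · by_cases hv : w v = 0
      · simp only [hv, zero_mul]
        exact Set.indicator_nonneg (fun _ _ => (Real.exp_pos _).le) v
      · have h2 := hws v hv
        have h3 : v ∈ Set.Ioc a b := ⟨h2.1, h2.2.le⟩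
        simp only [Set.indicator_of_mem h3]
        exact mul_le_of_le_one_left (Real.exp_pos _).le (hw1 v)
  have h2 : ∫ v in a..b, c * Real.exp (c * v) = Real.exp (c * b) - Real.exp (c * a) := by
    refine intervalIntegral.integral_eq_sub_of_hasDerivAt (f := fun v => Real.exp (c * v)) (fun v _ => ?_) ?_
    · have := ((hasDerivAt_id v).const_mul c).exp
      simpa [mul_comm] using this
    · exact (continuous_const.mul hcont).intervalIntegrable _ _
  rw [intervalIntegral.integral_const_mul] at h2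
  rw [← h2]
  exact mul_le_mul_of_nonneg_left h1 hc.le

private theorem UPP_int0 {w : ℝ → ℝ} (hw0 : ∀ u, 0 ≤ w u) (c : ℝ) : 0 ≤ ∫ v : ℝ, w v * Real.exp (c * v) :=
  integral_nonneg fun v => mul_nonneg (hw0 v) (Real.exp_pos _).le

/-- `e^y ≤ 1 + 2y` -/
private theorem UPP_exp {y : ℝ} (hy0 : 0 ≤ y) (hy : y ≤ 1) : Real.exp y ≤ 1 + 2 * y := by
  have h1 : |y| ≤ 1 := by rw [abs_of_nonneg hy0]; exact hy
  have h2 := Real.abs_exp_sub_one_sub_id_le h1
  have h3 := (abs_le.1 h2).2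
  nlinarith

/-- the time side -/
private theorem UPP_w {w : ℝ → ℝ} (hw : Sm w) {k z η : ℝ} (hk : 0 < k) (hk1 : k ≤ 1 / 10) (hz : 0 < z) (hz1 : z ≤ 1 / 8)
    (hη : η = -Real.log (1 - z)) (hη1 : z ≤ η) (hη2 : η ≤ 2 * z) (hw1 : ∀ u, w u ≤ 1)
    (hws : ∀ u, w u ≠ 0 → -1 - k < u ∧ u < k) :
    η * ∫ v : ℝ, w v * Real.exp (η * v) ≤ z * (1 + 6 * k) := by
  have hη0 : 0 < η := by linarith
  have h1 := UPP_int hw (by linarith : -1 - k ≤ k) hη0 hw1 hws
  have h2 : Real.exp (η * k) ≤ 1 + 2 * (η * k) := UPP_exp (by positivity) (by nlinarith)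
  have h3 : Real.exp (-η) = 1 - z := by
    rw [hη, neg_neg, Real.exp_log (by linarith)]
  have h4 : Real.exp (η * (-1 - k)) = (1 - z) * Real.exp (-(η * k)) := by
    rw [← h3, ← Real.exp_add]
    congr 1
    ring
  have h5 : 1 - η * k ≤ Real.exp (-(η * k)) := by
    have := Real.add_one_le_exp (-(η * k))
    linarith
  have h6 : (1 - z) * (1 - η * k) ≤ (1 - z) * Real.exp (-(η * k)) := mul_le_mul_of_nonneg_left h5 (by linarith)
  have h7 : η * k ≤ 2 * z * k := mul_le_mul_of_nonneg_right hη2 hk.le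
  have h8 : 0 ≤ z * (η * k) := by positivity
  nlinarith

/-- the mass side -/
private theorem UPP_f {φ : ℝ → ℝ} (hφ : Sm φ) {k s t J : ℝ} (hk : 0 < k) (hk1 : k ≤ 1 / 10) (hs : 1 ≤ s) (hst : t = s + 1 / J)
    (hJ : 0 < J) (ht : t ≤ 2) (hφ1 : ∀ u, φ u ≤ 1)
    (hφs : ∀ u, φ u ≠ 0 → Real.log s - k < u ∧ u < Real.log t + k) :
    ∫ u : ℝ, φ u * Real.exp (3 * u) ≤ t ^ 2 / J + 24 * k := by
  have hJ1 : 0 < 1 / J := by positivity
  have hs0 : 0 < s := by linarith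
  have ht0 : 0 < t := by linarith
  have hst' : s ≤ t := by linarith
  have hl : Real.log s ≤ Real.log t := Real.log_le_log hs0 hst'
  have h1 := UPP_int hφ (by linarith : Real.log s - k ≤ Real.log t + k) (by norm_num : (0 : ℝ) < 3) hφ1 hφs
  have h2 : Real.exp (3 * (Real.log t + k)) = t ^ 3 * Real.exp (3 * k) := by
    rw [mul_add, Real.exp_add]
    congr 1
    rw [show (3 : ℝ) * Real.log t = Real.log (t ^ 3) by rw [Real.log_pow]; norm_num, Real.exp_log (by positivity)]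
  have h3 : Real.exp (3 * (Real.log s - k)) = s ^ 3 * Real.exp (-(3 * k)) := by
    rw [show 3 * (Real.log s - k) = 3 * Real.log s + -(3 * k) by ring, Real.exp_add]
    congr 1
    rw [show (3 : ℝ) * Real.log s = Real.log (s ^ 3) by rw [Real.log_pow]; norm_num, Real.exp_log (by positivity)]
  have h4 : Real.exp (3 * k) ≤ 1 + 2 * (3 * k) := UPP_exp (by positivity) (by linarith)
  have h5 : 1 - 3 * k ≤ Real.exp (-(3 * k)) := by
    have := Real.add_one_le_exp (-(3 * k))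
    linarith
  rw [h2, h3] at h1
  have ht3 : t ^ 3 ≤ 8 := by
    calc t ^ 3 ≤ 2 ^ 3 := by gcongr
      _ = 8 := by norm_num
  have hs3 : s ^ 3 ≤ 8 := by
    calc s ^ 3 ≤ 2 ^ 3 := by gcongr; linarith
      _ = 8 := by norm_num
  have h6 : t ^ 3 * Real.exp (3 * k) ≤ t ^ 3 * (1 + 2 * (3 * k)) := mul_le_mul_of_nonneg_left h4 (by positivity)
  have h7 : s ^ 3 * (1 - 3 * k) ≤ s ^ 3 * Real.exp (-(3 * k)) := mul_le_mul_of_nonneg_left h5 (by positivity)
  have h8 : t ^ 3 * k ≤ 8 * k := mul_le_mul_of_nonneg_right ht3 hk.le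
  have h9 : s ^ 3 * k ≤ 8 * k := mul_le_mul_of_nonneg_right hs3 hk.le
  have h10 : t ^ 3 - s ^ 3 ≤ 3 * (t ^ 2 / J) := by
    have e1 : t ^ 3 - s ^ 3 = (1 / J) * (t ^ 2 + t * s + s ^ 2) := by
      rw [hst]
      ring
    have e2 : t ^ 2 + t * s + s ^ 2 ≤ 3 * t ^ 2 := by nlinarith
    rw [e1]
    calc (1 / J) * (t ^ 2 + t * s + s ^ 2) ≤ (1 / J) * (3 * t ^ 2) := mul_le_mul_of_nonneg_left e2 hJ1.le
      _ = 3 * (t ^ 2 / J) := by ring
  linarith

/-- `z ≤ -log(1-z) ≤ 2z` -/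
private theorem UPP_eta {z : ℝ} (hz : 0 < z) (hz1 : z ≤ 1 / 8) : z ≤ -Real.log (1 - z) ∧ -Real.log (1 - z) ≤ 2 * z := by
  have h0 : 0 < 1 - z := by linarith
  constructor
  · have := Real.log_le_sub_one_of_pos h0
    linarith
  · have h1 := Real.log_le_sub_one_of_pos (inv_pos.2 h0)
    rw [Real.log_inv] at h1
    have h2 : (1 - z)⁻¹ ≤ 1 + 2 * z := by
      rw [inv_eq_one_div, div_le_iff₀ h0]
      nlinarith
    linarith

/-- the arithmetic of one term -/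
private theorem UPP_term {x B s t J k k2 z η Sp S I1 I2 : ℝ} (hx : 0 < x) (hB : 0 ≤ B) (hs : 1 ≤ s) (hJ : 1 ≤ J)
    (hst : t = s + 1 / J) (hk : 0 < k) (hk2 : 0 < k2) (hz : z = B / (8 * x ^ 2 * s ^ 2)) (hη2 : η ≤ 2 * z)
    (hI1 : η * I1 ≤ z * (1 + 6 * k)) (hI20 : 0 ≤ I2)
    (hI2 : I2 ≤ t ^ 2 / J + 24 * k) (h1 : |Sp - S| ≤ k2 * η * x ^ 3)
    (h2 : |S - 8 * x ^ 3 * (η * I1) * I2| ≤ k2 * η * x ^ 3) :
    Sp ≤ B * x * ((1 + 6 * k) * ((1 + 3 / J) / J + 24 * k) + k2 / 2) := by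
  have hs0 : 0 < s := by linarith
  have hJ0 : 0 < J := by linarith
  have hz0 : 0 ≤ z := by rw [hz]; positivity
  have h3 := (abs_le.1 h1).2
  have h4 := (abs_le.1 h2).2
  have hzx : 8 * x ^ 3 * z = B * x * (1 / s ^ 2) := by
    rw [hz]
    field_simp
  have hs2 : 1 / s ^ 2 ≤ 1 := by
    rw [div_le_one (by positivity)]
    nlinarith
  have hBx : 0 ≤ B * x := by positivity
  have h5 : 8 * x ^ 3 * (η * I1) * I2 ≤ 8 * x ^ 3 * (z * (1 + 6 * k)) * (t ^ 2 / J + 24 * k) := by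
    have ha : 8 * x ^ 3 * (η * I1) ≤ 8 * x ^ 3 * (z * (1 + 6 * k)) := mul_le_mul_of_nonneg_left hI1 (by positivity)
    exact mul_le_mul ha hI2 hI20 (by positivity)
  have h6 : 8 * x ^ 3 * (z * (1 + 6 * k)) * (t ^ 2 / J + 24 * k) =
      B * x * ((1 + 6 * k) * (t ^ 2 * (1 / s ^ 2) / J + 24 * k * (1 / s ^ 2))) := by
    calc 8 * x ^ 3 * (z * (1 + 6 * k)) * (t ^ 2 / J + 24 * k) =
        (8 * x ^ 3 * z) * ((1 + 6 * k) * (t ^ 2 / J + 24 * k)) := by ring
      _ = _ := by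
        rw [hzx]
        ring
  have h7 : t ^ 2 * (1 / s ^ 2) ≤ 1 + 3 / J := by
    have hts : t ≤ s * (1 + 1 / J) := by
      rw [hst]
      have : 0 < 1 / J := by positivity
      nlinarith
    have ht0 : 0 ≤ t := by rw [hst]; positivity
    have e1 : t ^ 2 ≤ (s * (1 + 1 / J)) ^ 2 := pow_le_pow_left₀ ht0 hts 2
    have e2 : (1 + 1 / J) ^ 2 ≤ 1 + 3 / J := by
      have e3 : 1 / J ≤ 1 := by
        rw [div_le_one hJ0]
        exact hJ
      have e4 : 0 < 1 / J := by positivity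
      have e5 : 3 / J = 3 * (1 / J) := by ring
      rw [e5]
      nlinarith
    calc t ^ 2 * (1 / s ^ 2) ≤ (s * (1 + 1 / J)) ^ 2 * (1 / s ^ 2) := mul_le_mul_of_nonneg_right e1 (by positivity)
      _ = (1 + 1 / J) ^ 2 := by
        field_simp
      _ ≤ _ := e2
  have h8 : (1 + 6 * k) * (t ^ 2 * (1 / s ^ 2) / J + 24 * k * (1 / s ^ 2)) ≤
      (1 + 6 * k) * ((1 + 3 / J) / J + 24 * k) := by
    refine mul_le_mul_of_nonneg_left ?_ (by positivity)
    have e1 : t ^ 2 * (1 / s ^ 2) / J ≤ (1 + 3 / J) / J := div_le_div_of_nonneg_right h7 hJ0.le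
    have e2 : 24 * k * (1 / s ^ 2) ≤ 24 * k * 1 := mul_le_mul_of_nonneg_left hs2 (by positivity)
    linarith
  have h9 : B * x * ((1 + 6 * k) * (t ^ 2 * (1 / s ^ 2) / J + 24 * k * (1 / s ^ 2))) ≤
      B * x * ((1 + 6 * k) * ((1 + 3 / J) / J + 24 * k)) := mul_le_mul_of_nonneg_left h8 hBx
  have h10 : 2 * (k2 * η * x ^ 3) ≤ B * x * (k2 / 2) := by
    calc 2 * (k2 * η * x ^ 3) = (2 * k2 * x ^ 3) * η := by ring
      _ ≤ (2 * k2 * x ^ 3) * (2 * z) := mul_le_mul_of_nonneg_left hη2 (by positivity)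
      _ = (k2 / 2) * (8 * x ^ 3 * z) := by ring
      _ = (k2 / 2) * (B * x) * (1 / s ^ 2) := by
        rw [hzx]
        ring
      _ ≤ (k2 / 2) * (B * x) * 1 := mul_le_mul_of_nonneg_left hs2 (by positivity)
      _ = _ := by ring
  have h11 : B * x * ((1 + 6 * k) * ((1 + 3 / J) / J + 24 * k) + k2 / 2) =
      B * x * ((1 + 6 * k) * ((1 + 3 / J) / J + 24 * k)) + B * x * (k2 / 2) := by ring
  rw [h11]
  linarith

/-- the final constants -/
private theorem UPP_const {K J k k2 : ℝ} (hK : 0 < K) (hK1 : K ≤ 1) (hJ : 1 ≤ J) (hJK : 24 / K ≤ J)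
    (hk : k = K / (192 * J)) (hk2 : k2 = K / (4 * J)) :
    J * ((1 + 6 * k) * ((1 + 3 / J) / J + 24 * k) + k2 / 2) ≤ 1 + K := by
  have hJ0 : 0 < J := by linarith
  have e1 : J * ((1 + 6 * k) * ((1 + 3 / J) / J + 24 * k) + k2 / 2) =
      (1 + 6 * k) * (1 + 3 / J + 24 * (k * J)) + (k2 * J) / 2 := by
    field_simp
  have e2 : k * J = K / 192 := by
    rw [hk]
    field_simp
  have e3 : k2 * J = K / 4 := by
    rw [hk2]
    field_simp
  have e4 : 3 / J ≤ K / 8 := by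
    rw [div_le_iff₀ hJ0]
    rw [div_le_iff₀ hK] at hJK
    linarith
  have e5 : k ≤ K / 192 := by
    rw [← e2]
    have hk0 : 0 ≤ k := by rw [hk]; positivity
    nlinarith
  have hk0 : 0 < k := by rw [hk]; positivity
  rw [e1, e2, e3]
  have e6 : (1 + 6 * k) * (1 + 3 / J + 24 * (K / 192)) ≤ (1 + 6 * (K / 192)) * (1 + K / 8 + 24 * (K / 192)) :=
    mul_le_mul (by linarith) (by linarith) (by positivity) (by positivity)
  nlinarith

/-- the weights are `1` -/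
private theorem UPP_one {x m n B j J : ℕ} (hx : 1 ≤ x) (hB : B ≤ x ^ 2) (hB0 : 1 ≤ B) (hJ : 1 ≤ J)
    (hm : x < m) (hm2 : m ≤ 2 * x)
    (hj1 : j * x + J * x ≤ J * m) (hj2 : J * m ≤ (j + 1) * x + J * x)
    (hn : 8 * m ^ 2 - B ≤ n) (hn2 : n < 8 * m ^ 2) {z : ℝ}
    (hz : z = B / (8 * (x : ℝ) ^ 2 * (1 + (j : ℝ) / J) ^ 2)) (hz1 : z ≤ 1 / 8) :
    (Real.log (1 + (j : ℝ) / J) ≤ Real.log ((m : ℝ) / x) ∧
      Real.log ((m : ℝ) / x) ≤ Real.log (1 + ((j : ℝ) + 1) / J)) ∧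
    (21 / 20 ≤ Real.log ((n : ℝ) / (x : ℝ) ^ 2) ∧ Real.log ((n : ℝ) / (x : ℝ) ^ 2) ≤ 79 / 20) ∧
    (-1 ≤ (Real.log n - Real.log (8 * (m : ℝ) ^ 2)) / -Real.log (1 - z) ∧
      (Real.log n - Real.log (8 * (m : ℝ) ^ 2)) / -Real.log (1 - z) ≤ 0) := by
  have hx0 : (0 : ℝ) < x := by exact_mod_cast hx
  have hJ0 : (0 : ℝ) < J := by exact_mod_cast hJ
  have hm0 : (x : ℝ) < m := by exact_mod_cast hm
  have hm2' : (m : ℝ) ≤ 2 * x := by exact_mod_cast hm2
  have hmp : (0 : ℝ) < m := hx0.trans hm0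
  have hB' : (B : ℝ) ≤ (x : ℝ) ^ 2 := by exact_mod_cast hB
  have hBp : (0 : ℝ) < B := by exact_mod_cast hB0
  have hj1' : (j : ℝ) * x + J * x ≤ J * m := by exact_mod_cast hj1
  have hj2' : (J : ℝ) * m ≤ ((j : ℝ) + 1) * x + J * x := by exact_mod_cast hj2
  have hsub : B ≤ 8 * m ^ 2 := by nlinarith
  have hn' : 8 * (m : ℝ) ^ 2 - B ≤ n := by
    have : 8 * m ^ 2 ≤ n + B := by omega
    have h2 : 8 * (m : ℝ) ^ 2 ≤ n + B := by exact_mod_cast this
    linarith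
  have hn2' : (n : ℝ) < 8 * (m : ℝ) ^ 2 := by exact_mod_cast hn2
  have hxm : (x : ℝ) ^ 2 ≤ (m : ℝ) ^ 2 := by nlinarith
  have hxm2 : (m : ℝ) ^ 2 ≤ 4 * (x : ℝ) ^ 2 := by nlinarith
  have hx2 : (0 : ℝ) < (x : ℝ) ^ 2 := by positivity
  have hn7 : 7 * (x : ℝ) ^ 2 ≤ n := by nlinarith
  have hnp : (0 : ℝ) < n := by nlinarith
  have hs1 : 1 + (j : ℝ) / J ≤ (m : ℝ) / x := by
    rw [le_div_iff₀ hx0]
    have : (1 + (j : ℝ) / J) * x = (j * x + J * x) / J := by field_simp; ring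
    rw [this, div_le_iff₀ hJ0]
    linarith
  refine ⟨⟨?_, ?_⟩, ⟨?_, ?_⟩, ?_⟩
  · exact Real.log_le_log (by positivity) hs1
  · refine Real.log_le_log (by positivity) ?_
    rw [div_le_iff₀ hx0]
    have : (1 + ((j : ℝ) + 1) / J) * x = ((j + 1) * x + J * x) / J := by field_simp; ring
    rw [this, le_div_iff₀ hJ0]
    linarith
  · have h1 : (4 : ℝ) ≤ (n : ℝ) / (x : ℝ) ^ 2 := by
      rw [le_div_iff₀ hx2]
      linarith
    have h2 : Real.log 4 ≤ Real.log ((n : ℝ) / (x : ℝ) ^ 2) := Real.log_le_log (by norm_num) h1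
    have h3 : Real.log 4 = 2 * Real.log 2 := by
      rw [show (4 : ℝ) = 2 ^ 2 by norm_num, Real.log_pow]
      norm_num
    have h4 := Real.log_two_gt_d9
    linarith
  · have h1 : (n : ℝ) / (x : ℝ) ^ 2 ≤ 32 := by
      rw [div_le_iff₀ hx2]
      nlinarith
    have h2 : Real.log ((n : ℝ) / (x : ℝ) ^ 2) ≤ Real.log 32 := Real.log_le_log (by positivity) h1
    have h3 : Real.log 32 = 5 * Real.log 2 := by
      rw [show (32 : ℝ) = 2 ^ 5 by norm_num, Real.log_pow]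
      norm_num
    have h4 := Real.log_two_lt_d9
    linarith
  · have hz0 : 0 < z := by
      rw [hz]
      positivity
    have hη : 0 < -Real.log (1 - z) := lt_of_lt_of_le hz0 (UPP_eta hz0 hz1).1
    have h8 : (1 - z) * (8 * (m : ℝ) ^ 2) ≤ n := by
      have e1 : (B : ℝ) ≤ z * (8 * (m : ℝ) ^ 2) := by
        have e2 : (1 + (j : ℝ) / J) * x ≤ m := by
          rw [le_div_iff₀ hx0] at hs1
          exact hs1
        have e3 : ((1 + (j : ℝ) / J) * x) ^ 2 ≤ (m : ℝ) ^ 2 := pow_le_pow_left₀ (by positivity) e2 2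
        calc (B : ℝ) = z * (8 * ((1 + (j : ℝ) / J) * x) ^ 2) := by
              rw [hz]
              field_simp
          _ ≤ z * (8 * (m : ℝ) ^ 2) := by
              refine mul_le_mul_of_nonneg_left ?_ hz0.le
              linarith
      linarith
    have h9 : Real.log (1 - z) + Real.log (8 * (m : ℝ) ^ 2) ≤ Real.log n := by
      rw [← Real.log_mul (by linarith) (by positivity)]
      exact Real.log_le_log (by
        have : 0 < 1 - z := by linarith
        positivity) h8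
    have h10 : Real.log n ≤ Real.log (8 * (m : ℝ) ^ 2) := Real.log_le_log hnp hn2'.le
    constructor
    · rw [le_div_iff₀ hη]
      linarith
    · exact div_nonpos_of_nonpos_of_nonneg (by linarith) hη.le

/-- **UPP** -/
theorem UPP (hBMP : BMP_stmt) (hINT : INT_stmt) (hSZA : SZA_stmt) : UPP_stmt := by
  intro ε κ hε hκ
  obtain ⟨K, hK0, hK1, hKκ⟩ : ∃ K : ℝ, 0 < K ∧ K ≤ 1 ∧ K ≤ κ :=
    ⟨min κ 1, lt_min hκ one_pos, min_le_right _ _, min_le_left _ _⟩
  obtain ⟨J, hJ24⟩ := exists_nat_ge (24 / K)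
  have h24 : (24 : ℝ) ≤ 24 / K := by
    rw [le_div_iff₀ hK0]
    linarith
  have hJR : (1 : ℝ) ≤ J := by linarith
  have hJ1 : 1 ≤ J := by exact_mod_cast hJR
  have hJ0 : (0 : ℝ) < J := by linarith
  obtain ⟨k, hk⟩ : ∃ k : ℝ, k = K / (192 * J) := ⟨_, rfl⟩
  obtain ⟨k2, hk2⟩ : ∃ k2 : ℝ, k2 = K / (4 * J) := ⟨_, rfl⟩
  have hk0 : 0 < k := by rw [hk]; positivity
  have hk20 : 0 < k2 := by rw [hk2]; positivity
  have hk10 : k ≤ 1 / 10 := by
    rw [hk, div_le_iff₀ (by positivity)]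
    linarith
  obtain ⟨g, hg, hg01, hgs, hg1⟩ := hBMP 1 4 (1 / 20) (by norm_num) (by norm_num)
  obtain ⟨w, hw, hw01, hws, hw1⟩ := hBMP (-1 - k) k k hk0 (by linarith)
  have hlog : ∀ j : ℕ, Real.log (1 + (j : ℝ) / J) ≤ Real.log (1 + ((j : ℝ) + 1) / J) := by
    intro j
    refine Real.log_le_log (by positivity) ?_
    have : (j : ℝ) / J ≤ ((j : ℝ) + 1) / J := div_le_div_of_nonneg_right (by linarith) hJ0.le
    linarith
  have hlog' : ∀ j : ℕ, Real.log (1 + (j : ℝ) / J) < Real.log (1 + ((j : ℝ) + 1) / J) := by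
    intro j
    refine Real.log_lt_log (by positivity) ?_
    have : (j : ℝ) / J < ((j : ℝ) + 1) / J := div_lt_div_of_pos_right (by linarith) hJ0
    linarith
  have hφex := fun j : ℕ => hBMP (Real.log (1 + (j : ℝ) / J) - k) (Real.log (1 + ((j : ℝ) + 1) / J) + k) k hk0
    (by linarith [hlog' j])
  choose φ hφ hφ01 hφs hφ1 using hφex
  have hl2 := Real.log_two_lt_d9
  have hthr : ∀ j : ℕ, ∃ x₀ : ℕ, j < J → ∀ x : ℕ, x₀ ≤ x → ∀ η : ℝ, (x : ℝ) ^ (-(4 / 3 : ℝ) + ε / 2) ≤ η → 0 < η →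
      η ≤ 1 / 4 → |Spn (φ j) g w x η - S0 (φ j) g w x η| ≤ k2 * η * (x : ℝ) ^ 3 ∧
      |S0 (φ j) g w x η - 8 * (x : ℝ) ^ 3 * (η * ∫ v : ℝ, w v * Real.exp (η * v)) * ∫ u : ℝ, φ j u * Real.exp (3 * u)| ≤
        k2 * η * (x : ℝ) ^ 3 := by
    intro j
    by_cases hj : j < J
    · obtain ⟨x1, hx1⟩ := hINT (φ j) g w (hφ j) hg hw (fun u hu => ⟨(hgs u hu).1.le, (hgs u hu).2.le⟩) (ε / 2) k2
        (by positivity) hk20
      obtain ⟨x2, hx2⟩ := hSZA (φ j) g w (hφ j) hg hw (fun u hu => by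
        have h1 := hφs j u hu
        have h2 : 0 ≤ Real.log (1 + (j : ℝ) / J) := Real.log_nonneg (by
          have : 0 ≤ (j : ℝ) / J := by positivity
          linarith)
        have h3 : Real.log (1 + ((j : ℝ) + 1) / J) ≤ Real.log 2 := by
          refine Real.log_le_log (by positivity) ?_
          have h4 : ((j : ℝ) + 1) / J ≤ 1 := by
            rw [div_le_one hJ0]
            exact_mod_cast hj
          linarith
        constructor <;> linarith) (fun u hu => by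
          have h1 := hws u hu
          constructor <;> linarith) (fun u hu hu2 => hg1 u (by linarith) (by linarith)) k2 hk20
      refine ⟨max x1 x2, fun _ x hx η hη hη0 hη1 => ⟨?_, ?_⟩⟩
      · exact hx1 x ((le_max_left _ _).trans hx) η hη (by linarith)
      · exact hx2 x ((le_max_right _ _).trans hx) η hη0 hη1
    · exact ⟨0, fun h => absurd h hj⟩
  choose X hX using hthr
  have hbig : ∃ N : ℕ, ∀ x : ℕ, N ≤ x → (32 : ℝ) ≤ (x : ℝ) ^ (ε / 2) := by
    have h1 := (tendsto_rpow_atTop (by positivity : 0 < ε / 2)).comp tendsto_natCast_atTop_atTop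
    have h2 := h1.eventually (Filter.eventually_ge_atTop (32 : ℝ))
    obtain ⟨N, hN⟩ := Filter.eventually_atTop.1 h2
    exact ⟨N, fun x hx => hN x hx⟩
  obtain ⟨N, hN⟩ := hbig
  refine ⟨max (max N 1) ((range J).sup X), fun x hx B hB1 hB2 => ?_⟩
  have hxN : N ≤ x := (le_max_left _ _).trans ((le_max_left _ _).trans hx)
  have hx1 : 1 ≤ x := (le_max_right _ _).trans ((le_max_left _ _).trans hx)
  have hxX : ∀ j, j < J → X j ≤ x := fun j hj =>
    (Finset.le_sup (f := X) (mem_range.2 hj)).trans ((le_max_right _ _).trans hx)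
  have hx0 : (0 : ℝ) < x := by exact_mod_cast hx1
  have hxR : (1 : ℝ) ≤ x := by exact_mod_cast hx1
  have hBp : (0 : ℝ) < B := lt_of_lt_of_le (by positivity) hB1
  have hB0 : 1 ≤ B := by exact_mod_cast hBp
  have hB' : (B : ℝ) ≤ (x : ℝ) ^ 2 := by exact_mod_cast hB2
  obtain ⟨z, hz⟩ : ∃ z : ℕ → ℝ, ∀ j, z j = B / (8 * (x : ℝ) ^ 2 * (1 + (j : ℝ) / J) ^ 2) := ⟨_, fun _ => rfl⟩
  have hs1 : ∀ j : ℕ, 1 ≤ 1 + (j : ℝ) / J := fun j => by
    have : 0 ≤ (j : ℝ) / J := by positivity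
    linarith
  have hz0 : ∀ j, 0 < z j := fun j => by
    rw [hz]
    have := hs1 j
    positivity
  have hz1 : ∀ j, z j ≤ 1 / 8 := fun j => by
    rw [hz, div_le_iff₀ (by have := hs1 j; positivity)]
    have h1 : 1 ≤ (1 + (j : ℝ) / J) ^ 2 := one_le_pow₀ (hs1 j)
    nlinarith [mul_le_mul_of_nonneg_left h1 (by positivity : 0 ≤ (x : ℝ) ^ 2)]
  -- the term bound
  have hterm : ∀ j ∈ range J, Spn (φ j) g w x (-Real.log (1 - z j)) ≤
      B * x * ((1 + 6 * k) * ((1 + 3 / J) / J + 24 * k) + k2 / 2) := by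
    intro j hj
    have hj' := mem_range.1 hj
    have hη := UPP_eta (hz0 j) (hz1 j)
    have hη0 : 0 < -Real.log (1 - z j) := lt_of_lt_of_le (hz0 j) hη.1
    have ht2 : (1 : ℝ) + ((j : ℝ) + 1) / J ≤ 2 := by
      have h4 : ((j : ℝ) + 1) / J ≤ 1 := by
        rw [div_le_one hJ0]
        exact_mod_cast hj'
      linarith
    have hs2 : (1 : ℝ) + (j : ℝ) / J ≤ 2 := by
      have h5 : (j : ℝ) / J ≤ ((j : ℝ) + 1) / J := div_le_div_of_nonneg_right (by linarith) hJ0.le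
      linarith
    have hlow : (x : ℝ) ^ (-(4 / 3 : ℝ) + ε / 2) ≤ -Real.log (1 - z j) := by
      refine le_trans ?_ hη.1
      rw [hz, le_div_iff₀ (by have := hs1 j; positivity)]
      have h1 : (1 + (j : ℝ) / J) ^ 2 ≤ 4 := by
        calc (1 + (j : ℝ) / J) ^ 2 ≤ 2 ^ 2 := pow_le_pow_left₀ (by have := hs1 j; positivity) hs2 2
          _ = 4 := by norm_num
      have h2 : (x : ℝ) ^ (2 / 3 + ε) = (x : ℝ) ^ (-(4 / 3 : ℝ) + ε / 2) * (x : ℝ) ^ 2 * (x : ℝ) ^ (ε / 2) := by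
        rw [← Real.rpow_natCast (x : ℝ) 2, ← Real.rpow_add hx0, ← Real.rpow_add hx0]
        congr 1
        push_cast
        ring
      have h3 := hN x hxN
      have h4 : 0 < (x : ℝ) ^ (-(4 / 3 : ℝ) + ε / 2) * (x : ℝ) ^ 2 := by positivity
      calc (x : ℝ) ^ (-(4 / 3 : ℝ) + ε / 2) * (8 * (x : ℝ) ^ 2 * (1 + (j : ℝ) / J) ^ 2) =
          ((x : ℝ) ^ (-(4 / 3 : ℝ) + ε / 2) * (x : ℝ) ^ 2) * (8 * (1 + (j : ℝ) / J) ^ 2) := by ring
        _ ≤ ((x : ℝ) ^ (-(4 / 3 : ℝ) + ε / 2) * (x : ℝ) ^ 2) * (8 * 4) := by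
          refine mul_le_mul_of_nonneg_left ?_ h4.le
          linarith
        _ ≤ ((x : ℝ) ^ (-(4 / 3 : ℝ) + ε / 2) * (x : ℝ) ^ 2) * (x : ℝ) ^ (ε / 2) := by
          refine mul_le_mul_of_nonneg_left ?_ h4.le
          linarith
        _ = (x : ℝ) ^ (2 / 3 + ε) := h2.symm
        _ ≤ B := hB1
    obtain ⟨h1, h2⟩ := hX j hj' x (hxX j hj') _ hlow hη0 (by linarith [hz1 j])
    have hst : (1 : ℝ) + ((j : ℝ) + 1) / J = (1 + (j : ℝ) / J) + 1 / J := by ring
    exact UPP_term hx0 hBp.le (hs1 j) hJR hst hk0 hk20 (hz j) hη.2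
      (UPP_w hw hk0 hk10 (hz0 j) (hz1 j) rfl hη.1 hη.2 (fun u => (hw01 u).2) hws)
      (UPP_int0 (fun u => (hφ01 j u).1) 3)
      (UPP_f (hφ j) hk0 hk10 (hs1 j) hst hJ0 ht2 (fun u => (hφ01 j u).2) (hφs j)) h1 h2
  -- the majorant
  have hmaj : WT x B ≤ ∑ j ∈ range J, Spn (φ j) g w x (-Real.log (1 - z j)) := by
    have hnn : ∀ j m n : ℕ, 0 ≤ vonMangoldt m * vonMangoldt n * φ j (Real.log ((m : ℝ) / x)) *
        g (Real.log ((n : ℝ) / (x : ℝ) ^ 2)) *
        w ((Real.log n - Real.log (8 * (m : ℝ) ^ 2)) / -Real.log (1 - z j)) := fun j m n =>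
      mul_nonneg (mul_nonneg (mul_nonneg (mul_nonneg vonMangoldt_nonneg vonMangoldt_nonneg) (hφ01 j _).1) (hg01 _).1)
        (hw01 _).1
    calc WT x B ≤ ∑ m ∈ Ioc x (2 * x), ∑ j ∈ range J, ∑ n ∈ Ico (8 * m ^ 2 - B) (8 * m ^ 2),
          vonMangoldt m * vonMangoldt n * φ j (Real.log ((m : ℝ) / x)) * g (Real.log ((n : ℝ) / (x : ℝ) ^ 2)) *
          w ((Real.log n - Real.log (8 * (m : ℝ) ^ 2)) / -Real.log (1 - z j)) := by
          unfold WT
          refine Finset.sum_le_sum fun m hm => ?_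
          obtain ⟨hm1, hm2⟩ := mem_Ioc.1 hm
          obtain ⟨j, hj⟩ : ∃ j, j = (J * (m - x) - 1) / x := ⟨_, rfl⟩
          have hJm : 1 ≤ J * (m - x) := Nat.mul_pos (by omega) (by omega)
          have hJm2 : J * (m - x) ≤ J * x := Nat.mul_le_mul_left _ (by omega)
          have hjJ : j < J := by
            rw [hj, Nat.div_lt_iff_lt_mul (by omega)]
            omega
          have e1 : j * x ≤ J * (m - x) - 1 := by
            rw [hj]
            exact Nat.div_mul_le_self _ _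
          have e2 : J * (m - x) - 1 < (j + 1) * x := by
            have := Nat.lt_mul_div_succ (J * (m - x) - 1) (show 0 < x by omega)
            rw [← hj] at this
            calc J * (m - x) - 1 < x * (j + 1) := this
              _ = (j + 1) * x := by ring
          have e3 : J * m = J * (m - x) + J * x := by
            rw [← Nat.mul_add]
            congr 1
            omega
          have hj1 : j * x + J * x ≤ J * m := by omega
          have hj2 : J * m ≤ (j + 1) * x + J * x := by omega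
          have hone : ∀ n ∈ Ico (8 * m ^ 2 - B) (8 * m ^ 2), vonMangoldt m * vonMangoldt n =
              vonMangoldt m * vonMangoldt n * φ j (Real.log ((m : ℝ) / x)) *
              g (Real.log ((n : ℝ) / (x : ℝ) ^ 2)) *
              w ((Real.log n - Real.log (8 * (m : ℝ) ^ 2)) / -Real.log (1 - z j)) := by
            intro n hn
            obtain ⟨hn1, hn2⟩ := mem_Ico.1 hn
            obtain ⟨⟨a1, a2⟩, ⟨a3, a4⟩, ⟨a5, a6⟩⟩ :=
              UPP_one hx1 hB2 hB0 hJ1 hm1 hm2 hj1 hj2 hn1 hn2 (hz j) (hz1 j)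
            rw [hφ1 j _ (by linarith) (by linarith), hg1 _ (by linarith) (by linarith),
              hw1 _ (by linarith) (by linarith)]
            ring
          rw [Finset.sum_congr rfl hone]
          exact Finset.single_le_sum (f := fun j => ∑ n ∈ Ico (8 * m ^ 2 - B) (8 * m ^ 2),
            vonMangoldt m * vonMangoldt n * φ j (Real.log ((m : ℝ) / x)) * g (Real.log ((n : ℝ) / (x : ℝ) ^ 2)) *
            w ((Real.log n - Real.log (8 * (m : ℝ) ^ 2)) / -Real.log (1 - z j)))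
            (fun i _ => Finset.sum_nonneg fun n _ => hnn i m n) (mem_range.2 hjJ)
      _ = ∑ j ∈ range J, ∑ m ∈ Ioc x (2 * x), ∑ n ∈ Ico (8 * m ^ 2 - B) (8 * m ^ 2),
          vonMangoldt m * vonMangoldt n * φ j (Real.log ((m : ℝ) / x)) * g (Real.log ((n : ℝ) / (x : ℝ) ^ 2)) *
          w ((Real.log n - Real.log (8 * (m : ℝ) ^ 2)) / -Real.log (1 - z j)) := Finset.sum_comm
      _ ≤ _ := Finset.sum_le_sum fun j _ => UPP_spn (hφ j) (fun u => (hφ01 j u).1) hg (fun u => (hg01 u).1)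
          (fun u => (hw01 u).1) x hx1 _ (Ioc x (2 * x)) fun m => Ico (8 * m ^ 2 - B) (8 * m ^ 2)
  have hfin := UPP_const hK0 hK1 hJR hJ24 hk hk2
  calc WT x B ≤ ∑ j ∈ range J, Spn (φ j) g w x (-Real.log (1 - z j)) := hmaj
    _ ≤ ∑ _j ∈ range J, B * x * ((1 + 6 * k) * ((1 + 3 / J) / J + 24 * k) + k2 / 2) := Finset.sum_le_sum hterm
    _ = (B * x) * (J * ((1 + 6 * k) * ((1 + 3 / J) / J + 24 * k) + k2 / 2)) := by
        rw [Finset.sum_const, card_range, nsmul_eq_mul]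
        ring
    _ ≤ (B * x) * (1 + K) := mul_le_mul_of_nonneg_left hfin (by positivity)
    _ ≤ (B * x) * (1 + κ) := mul_le_mul_of_nonneg_left (by linarith) (by positivity)
    _ = (1 + κ) * (B * x) := by ring

end Pool.Agent.SCT
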